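import Pool.Agent.Helper80K9.SB.Add

/-!
# Minimal strongly biconnected digraphs have at most `2 n - 3` arcs (`n ≥ 3`), and this is sharp
-/

set_option autoImplicit false

open Relation Pool.Agent.Helper80K9.SB

namespace Pool.Agent.Results.MP_5e4462_co.MinimalArcBound

universe u

/-- A finite digraph on `V` without parallel arcs is its set `E` of arcs; it has no loops. -/
def Loopless {V : Type u} (E : Finset (V × V)) : Prop := ∀ a : V, (a, a) ∉ E

/-- Every vertex is reached from every vertex along arcs. -/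
def StronglyConnected {V : Type u} (E : Finset (V × V)) : Prop :=
  ∀ a b : V, ReflTransGen (fun p q => (p, q) ∈ E) a b

/-- The underlying undirected simple graph. -/
def underlying {V : Type u} (E : Finset (V × V)) : SimpleGraph V where
  Adj a b := a ≠ b ∧ ((a, b) ∈ E ∨ (b, a) ∈ E)
  symm := ⟨fun _ _ h => ⟨h.1.symm, h.2.symm⟩⟩
  loopless := ⟨fun _ h => h.1 rfl⟩

/-- Deleting any one vertex leaves the underlying graph connected (or empty). -/
def NoArticulationPoint {V : Type u} (E : Finset (V × V)) : Prop :=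
  ∀ x : V, ((underlying E).induce {y | y ≠ x}).Preconnected

/-- Strongly biconnected digraphs. -/
def StronglyBiconnected {V : Type u} (E : Finset (V × V)) : Prop :=
  Loopless E ∧ StronglyConnected E ∧ NoArticulationPoint E

/-- Strongly biconnected, and deleting any arc destroys this. -/
def IsMinimal {V : Type u} [DecidableEq V] (E : Finset (V × V)) : Prop :=
  StronglyBiconnected E ∧ ∀ e ∈ E, ¬ StronglyBiconnected (E.erase e)

theorem na_iff {V : Type u} (E : Finset (V × V)) :
    NoArticulationPoint E ↔ ∀ x a b : V, a ≠ x → b ≠ x → ReflTransGen (Av E x) a b := by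
  constructor
  · intro h x a b ha hb
    have h1 := h x ⟨a, ha⟩ ⟨b, hb⟩
    rw [SimpleGraph.reachable_iff_reflTransGen] at h1
    have h2 : ∀ p q : {y | y ≠ x}, ReflTransGen ((underlying E).induce {y | y ≠ x}).Adj p q →
        ReflTransGen (Av E x) p.1 q.1 := by
      intro p q hpq
      induction hpq with
      | refl => exact ReflTransGen.refl
      | @tail y z _ hyz ih =>
        refine ih.tail ⟨?_, y.2, z.2⟩
        exact hyz.2
    exact h2 _ _ h1
  · intro h x a b
    rw [SimpleGraph.reachable_iff_reflTransGen]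
    have h1 : ∀ q : V, ReflTransGen (Av E x) a.1 q → ∀ hq : q ≠ x,
        ReflTransGen ((underlying E).induce {y | y ≠ x}).Adj a ⟨q, hq⟩ := by
      intro q hq
      induction hq with
      | refl => intro _; exact ReflTransGen.refl
      | @tail y z _ hyz ih =>
        intro hz
        by_cases hyz' : y = z
        · subst hyz'
          exact ih hz
        · exact (ih hyz.2.1).tail ⟨hyz', hyz.1⟩
    exact h1 b.1 (h x a.1 b.1 a.2 b.2) b.2

theorem mono_sb {V : Type u} {E F : Finset (V × V)} (hFE : F ⊆ E) (hE : Loopless E)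
    (hsc : ∀ a b : V, ReflTransGen (Ar F) a b)
    (hna : ∀ x a b : V, a ≠ x → b ≠ x → ReflTransGen (Av F x) a b) : StronglyBiconnected E := by
  classical
  refine ⟨hE, fun a b => ar_mono hFE (hsc a b), ?_⟩
  rw [na_iff]
  exact fun x a b ha hb => av_mono hFE (hna x a b ha hb)

theorem upper {V : Type u} [Fintype V] [DecidableEq V] {E : Finset (V × V)} (hE : IsMinimal E)
    (hn : 3 ≤ Fintype.card V) : E.card + 3 ≤ 2 * Fintype.card V := by
  obtain ⟨⟨hl, hsc, hna⟩, hmin⟩ := hE
  rw [na_iff] at hna
  obtain ⟨F, hFE, hSB, hcard⟩ := exists_spanning hsc hna hn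
  have hFE' : F = E := by
    by_contra hne
    obtain ⟨e, heE, heF⟩ := Finset.exists_of_ssubset (lt_of_le_of_ne hFE hne)
    refine hmin e heE (mono_sb (F := F) ?_ (fun a ha => hl a (Finset.mem_of_mem_erase ha)) ?_ ?_)
    · intro f hf
      exact Finset.mem_erase.2 ⟨fun h => heF (h ▸ hf), hFE hf⟩
    · exact fun a b => hSB.strong a (Finset.mem_univ _) b (Finset.mem_univ _)
    · exact fun x a b ha hb => hSB.av x a (Finset.mem_univ _) b (Finset.mem_univ _) ha hb
  rw [← hFE']
  exact hcard

theorem upper_all {V : Type u} [Fintype V] [DecidableEq V] {E : Finset (V × V)}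
    (hE : IsMinimal E) : E.card ≤ 2 * Fintype.card V := by
  by_cases hn : 3 ≤ Fintype.card V
  · have := upper hE hn
    omega
  · have h1 : E ⊆ (Finset.univ : Finset V).offDiag := by
      intro e he
      rw [Finset.mem_offDiag]
      refine ⟨Finset.mem_univ _, Finset.mem_univ _, ?_⟩
      intro h
      apply hE.1.1 e.1
      have : (e.1, e.1) = e := Prod.ext rfl h
      rwa [this]
    have h2 := Finset.card_le_card h1
    rw [Finset.offDiag_card, Finset.card_univ] at h2
    have h3 : Fintype.card V = 0 ∨ Fintype.card V = 1 ∨ Fintype.card V = 2 := by omega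
    rcases h3 with h | h | h <;> rw [h] at h2 ⊢ <;> omega

/-- the extremal digraph: `s → v → t` for all other `v`, and `t → s` -/
theorem lower (n : ℕ) (hn : 3 ≤ n) :
    ∃ E : Finset (Fin n × Fin n), IsMinimal E ∧ E.card = 2 * n - 3 := by
  let s : Fin n := ⟨0, by omega⟩
  let t : Fin n := ⟨1, by omega⟩
  have hst : s ≠ t := by
    intro h
    simp [s, t, Fin.ext_iff] at h
  let M : Finset (Fin n) := Finset.univ \ {s, t}
  have hM : ∀ v, v ∈ M ↔ v ≠ s ∧ v ≠ t := by intro v; simp [M]
  have hMc : M.card = n - 2 := by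
    rw [Finset.card_sdiff_of_subset (Finset.subset_univ _), Finset.card_univ, Fintype.card_fin,
      Finset.card_pair hst]
  let E : Finset (Fin n × Fin n) :=
    insert (t, s) (M.image (fun v => (s, v)) ∪ M.image (fun v => (v, t)))
  have hE : ∀ a b, (a, b) ∈ E ↔ (a = t ∧ b = s) ∨ (a = s ∧ b ∈ M) ∨ (a ∈ M ∧ b = t) := by
    intro a b
    simp only [E, Finset.mem_insert, Prod.mk.injEq, Finset.mem_union, Finset.mem_image]
    constructor
    · rintro (h | ⟨v, hv, h1, h2⟩ | ⟨v, hv, h1, h2⟩)
      · exact Or.inl h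
      · subst h2; exact Or.inr (Or.inl ⟨h1.symm, hv⟩)
      · subst h1; exact Or.inr (Or.inr ⟨hv, h2.symm⟩)
    · rintro (h | ⟨h1, h2⟩ | ⟨h1, h2⟩)
      · exact Or.inl h
      · exact Or.inr (Or.inl ⟨b, h2, h1.symm, rfl⟩)
      · exact Or.inr (Or.inr ⟨a, h1, rfl, h2.symm⟩)
  have hsM : s ∉ M := by rw [hM]; simp
  have htM : t ∉ M := by rw [hM]; simp
  have hcard : E.card = 2 * n - 3 := by
    rw [Finset.card_insert_of_notMem, Finset.card_union_of_disjoint,
      Finset.card_image_of_injective _ (fun a b h => (Prod.mk.inj h).2),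
      Finset.card_image_of_injective _ (fun a b h => (Prod.mk.inj h).1), hMc]
    · omega
    · rw [Finset.disjoint_left]
      intro p hp hp'
      obtain ⟨v, hv, rfl⟩ := Finset.mem_image.1 hp
      obtain ⟨w, hw, h⟩ := Finset.mem_image.1 hp'
      exact hsM ((Prod.mk.inj h).1 ▸ hw)
    · intro hp
      rcases Finset.mem_union.1 hp with hp | hp
      · obtain ⟨v, hv, h⟩ := Finset.mem_image.1 hp
        exact hst (Prod.mk.inj h).1
      · obtain ⟨v, hv, h⟩ := Finset.mem_image.1 hp
        exact hst (Prod.mk.inj h).2.symm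
  have hts : (t, s) ∈ E := (hE t s).2 (Or.inl ⟨rfl, rfl⟩)
  have hsv : ∀ v ∈ M, (s, v) ∈ E := fun v hv => (hE s v).2 (Or.inr (Or.inl ⟨rfl, hv⟩))
  have hvt : ∀ v ∈ M, (v, t) ∈ E := fun v hv => (hE v t).2 (Or.inr (Or.inr ⟨hv, rfl⟩))
  obtain ⟨m, hm⟩ : M.Nonempty := Finset.card_pos.1 (by omega)
  have hcases : ∀ v, v = s ∨ v = t ∨ v ∈ M := by
    intro v
    rw [hM]
    tauto
  refine ⟨E, ⟨⟨?_, ?_, ?_⟩, ?_⟩, hcard⟩
  · intro a ha
    rcases (hE a a).1 ha with ⟨h1, h2⟩ | ⟨h1, h2⟩ | ⟨h1, h2⟩
    · exact hst (h2.symm.trans h1)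
    · exact hsM (h1 ▸ h2)
    · exact htM (h2 ▸ h1)
  · -- strongly connected
    have h1 : ∀ v, ReflTransGen (fun p q => (p, q) ∈ E) s v := by
      intro v
      rcases hcases v with rfl | rfl | hv
      · exact ReflTransGen.refl
      · exact (ReflTransGen.single (hsv m hm)).tail (hvt m hm)
      · exact ReflTransGen.single (hsv v hv)
    have h2 : ∀ v, ReflTransGen (fun p q => (p, q) ∈ E) v s := by
      intro v
      rcases hcases v with rfl | rfl | hv
      · exact ReflTransGen.refl
      · exact ReflTransGen.single hts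
      · exact (ReflTransGen.single (hvt v hv)).tail hts
    exact fun a b => (h2 a).trans (h1 b)
  · rw [na_iff]
    intro x
    have hav : ∀ a b, a ≠ x → b ≠ x → ((a, b) ∈ E ∨ (b, a) ∈ E) → ReflTransGen (Av E x) a b :=
      fun a b ha hb h => ReflTransGen.single ⟨h, ha, hb⟩
    by_cases hxs : s = x
    · -- everything is joined to `t`
      have htx : t ≠ x := hxs ▸ hst.symm
      have h1 : ∀ v, v ≠ x → ReflTransGen (Av E x) v t := by
        intro v hvx
        rcases hcases v with rfl | rfl | hv
        · exact absurd hxs hvx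
        · exact ReflTransGen.refl
        · exact hav v t hvx htx (Or.inl (hvt v hv))
      exact fun a b ha hb => (h1 a ha).trans (rtg_av_symm (h1 b hb))
    · have h1 : ∀ v, v ≠ x → ReflTransGen (Av E x) v s := by
        intro v hvx
        rcases hcases v with rfl | rfl | hv
        · exact ReflTransGen.refl
        · exact hav t s hvx hxs (Or.inl hts)
        · exact hav v s hvx hxs (Or.inr (hsv v hv))
      exact fun a b ha hb => (h1 a ha).trans (rtg_av_symm (h1 b hb))
  · -- minimality
    rintro ⟨a, b⟩ hab ⟨_, hsc, _⟩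
    -- a vertex whose only outgoing (incoming) arc is deleted
    have hout : ∀ c d : Fin n, c ≠ d → (∀ w, (c, w) ∉ E.erase (a, b)) → False := by
      intro c d hcd hno
      rcases (hsc c d).cases_head with h | ⟨w, hw, _⟩
      · exact hcd h
      · exact hno w hw
    have hin : ∀ c d : Fin n, c ≠ d → (∀ w, (w, d) ∉ E.erase (a, b)) → False := by
      intro c d hcd hno
      rcases (hsc c d).cases_tail with h | ⟨w, _, hw⟩
      · exact hcd h.symm
      · exact hno w hw
    rcases (hE a b).1 hab with ⟨rfl, rfl⟩ | ⟨rfl, hb⟩ | ⟨ha, rfl⟩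
    · refine hout t s hst.symm ?_
      intro w hw
      rw [Finset.mem_erase, hE] at hw
      obtain ⟨hne, h | ⟨h, _⟩ | ⟨h, _⟩⟩ := hw
      · exact hne (by rw [h.2])
      · exact hst h.symm
      · exact htM h
    · refine hin s b (fun h => hsM (h ▸ hb)) ?_
      intro w hw
      rw [Finset.mem_erase, hE] at hw
      obtain ⟨hne, ⟨_, h⟩ | ⟨h, _⟩ | ⟨_, h⟩⟩ := hw
      · exact hsM (h ▸ hb)
      · exact hne (by rw [h])
      · exact htM (h ▸ hb)
    · refine hout a t (fun h => htM (h ▸ ha)) ?_
      intro w hw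
      rw [Finset.mem_erase, hE] at hw
      obtain ⟨hne, ⟨h, _⟩ | ⟨h, _⟩ | ⟨_, h⟩⟩ := hw
      · exact htM (h ▸ ha)
      · exact hsM (h ▸ ha)
      · exact hne (by rw [h])

/-- Every minimal strongly biconnected digraph on `n` vertices has at most `2 n` arcs; in fact for
every `n ≥ 3` the largest number of arcs is exactly `2 n - 3`. -/
theorem result :
    (∀ (V : Type u) [Fintype V] [DecidableEq V] (E : Finset (V × V)),
      IsMinimal E → E.card ≤ 2 * Fintype.card V) ∧
    (∀ n : ℕ, 3 ≤ n →
      IsGreatest {m : ℕ | ∃ E : Finset (Fin n × Fin n), IsMinimal E ∧ E.card = m} (2 * n - 3)) := by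
  refine ⟨fun V _ _ E hE => upper_all hE, fun n hn => ⟨?_, ?_⟩⟩
  · exact lower n hn
  · rintro m ⟨E, hE, rfl⟩
    have := upper hE (by rwa [Fintype.card_fin])
    rw [Fintype.card_fin] at this
    omega

end Pool.Agent.Results.MP_5e4462_co.MinimalArcBound
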